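import Pool.Agent.W5h68.Phylo.Words

set_option autoImplicit false

namespace Pool.Agent.W5h68.Phylo
open Pool.Agent.R935.Phylo Finset

variable {n : ℕ} {tp : ℕ → Bool}

/-- states with an open block. -/
def opn : St → Bool
  | .f => true
  | .p => true
  | .n => true
  | _ => false

theorem opn_of_m {b : Bool} {q q' : St} (h : step b .m q = some q') : opn q' = true := by
  cases b <;> cases q <;> simp only [step, reduceCtorEq, Option.some.injEq] at h <;>
    subst h <;> rfl

theorem opn_of_x {b : Bool} {q q' : St} (h : step b .x q = some q') :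
    opn q = true ∧ opn q' = false := by
  cases b <;> cases q <;> simp only [step, reduceCtorEq, Option.some.injEq] at h <;>
    subst h <;> exact ⟨rfl, rfl⟩

theorem step_s {b : Bool} {q q' : St} (h : step b .s q = some q') : q' = q := by
  unfold step at h
  exact (Option.some.inj h).symm

theorem run_succ_some {w : ℕ → Lab} {k : ℕ} {q' : St} (h : run tp w (k + 1) = some q') :
    ∃ q, run tp w k = some q ∧ step (tp k) (w k) q = some q' := by
  rw [run] at h
  rcases hr : run tp w k with _ | q
  · rw [hr] at h; simp at h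
  · rw [hr, Option.bind_some] at h
    exact ⟨q, rfl, h⟩

theorem run_open {w : ℕ → Lab} {k : ℕ} {q : St} (h : run tp w k = some q)
    (ho : opn q = true) : ∃ j, j < k ∧ w j = .m ∧ ∀ l, j < l → l < k → w l ≠ .x := by
  induction k generalizing q with
  | zero =>
    rw [run] at h
    obtain rfl := Option.some.inj h
    simp [opn] at ho
  | succ k ih =>
    obtain ⟨q0, h1, h2⟩ := run_succ_some h
    rcases hw : w k with _ | _ | _
    · rw [hw] at h2
      have := step_s h2
      subst this
      obtain ⟨j, h3, h4, h5⟩ := ih h1 ho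
      refine ⟨j, by omega, h4, fun l hl1 hl2 => ?_⟩
      rcases (Nat.lt_succ_iff.1 hl2).lt_or_eq with h6 | h6
      · exact h5 l hl1 h6
      · subst h6; rw [hw]; simp
    · exact ⟨k, by omega, hw, fun l hl1 hl2 => by omega⟩
    · rw [hw] at h2
      have := (opn_of_x h2).2
      rw [this] at ho
      simp at ho

theorem open_persist {w : ℕ → Lab} {k l : ℕ} (hkl : k ≤ l) {q q' : St}
    (h : run tp w k = some q) (ho : opn q = true) (hw : ∀ j, k ≤ j → j < l → w j ≠ .x)
    (h' : run tp w l = some q') : opn q' = true := by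
  induction l generalizing q' with
  | zero =>
    have : k = 0 := by omega
    subst this
    rw [h] at h'
    obtain rfl := Option.some.inj h'
    exact ho
  | succ l ih =>
    rcases hkl.lt_or_eq with h1 | h1
    · obtain ⟨q0, h2, h3⟩ := run_succ_some h'
      have h4 := ih (by omega) (fun j hj1 hj2 => hw j hj1 (by omega)) h2
      rcases hl : w l with _ | _ | _
      · rw [hl] at h3
        rw [step_s h3]; exact h4
      · rw [hl] at h3
        exact opn_of_m h3
      · exact absurd hl (hw l (by omega) (by omega))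
    · subst h1
      rw [h] at h'
      obtain rfl := Option.some.inj h'
      exact ho

theorem acc_some {o : Option St} (h : acc o = true) : ∃ q, o = some q ∧ opn q = false := by
  rcases o with _ | q
  · simp [acc] at h
  · cases q <;> simp_all [acc, opn]

section
variable {w : Fin n → Lab} (hw : acc (run tp (ext w) n) = true)
include hw

theorem v1 (a : Fin n) (ha : w a = .x) :
    ∃ j : Fin n, j < a ∧ w j = .m ∧ ∀ l, j < l → l < a → w l ≠ .x := by
  obtain ⟨q, h1, -⟩ := acc_some hw
  obtain ⟨q', h2⟩ := run_some_of_le (show (a : ℕ) + 1 ≤ n from a.2) h1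
  obtain ⟨q0, h3, h4⟩ := run_succ_some h2
  rw [ext_fin, ha] at h4
  obtain ⟨j, h5, h6, h7⟩ := run_open h3 (opn_of_x h4).1
  refine ⟨⟨j, by omega⟩, h5, ?_, fun l hl1 hl2 => ?_⟩
  · rw [ext_lt w (show j < n by omega)] at h6
    exact h6
  · have := h7 l hl1 hl2
    rwa [ext_fin] at this

theorem v2 (a : Fin n) (ha : w a = .m) :
    ∃ e : Fin n, a < e ∧ w e = .x ∧ ∀ l, a < l → l < e → w l ≠ .x := by
  classical
  obtain ⟨q, h1, h1'⟩ := acc_some hw
  obtain ⟨q', h2⟩ := run_some_of_le (show (a : ℕ) + 1 ≤ n from a.2) h1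
  obtain ⟨q0, h3, h4⟩ := run_succ_some h2
  rw [ext_fin, ha] at h4
  have ho := opn_of_m h4
  have hex : ∃ e : Fin n, a < e ∧ w e = .x := by
    by_contra hcon
    push Not at hcon
    have := open_persist (show (a : ℕ) + 1 ≤ n from a.2) h2 ho (fun j hj1 hj2 => by
      rw [ext_lt w hj2]
      exact hcon ⟨j, hj2⟩ (by rw [Fin.lt_def]; simp only; omega)) h1
    rw [this] at h1'
    simp at h1'
  obtain ⟨e, he, hmin⟩ := Finset.exists_min_image (univ.filter fun e => a < e ∧ w e = .x) id (by
    obtain ⟨e, he⟩ := hex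
    exact ⟨e, by simpa using he⟩)
  simp only [mem_filter, mem_univ, true_and, id] at he hmin
  refine ⟨e, he.1, he.2, fun l hl1 hl2 hl3 => ?_⟩
  exact absurd (hmin l ⟨hl1, hl3⟩) (not_le.2 hl2)

end

open Classical in
/-- The partition with a given label word. -/
noncomputable def part (w : Fin n → Lab) : Setoid (Fin n) :=
  R (univ.filter fun a => w a = .s) (univ.filter fun a => w a = .x)

theorem part_iff {w : Fin n → Lab} {i j : Fin n} : part w i j ↔
    i = j ∨ (w i ≠ .s ∧ w j ≠ .s ∧ ∀ e, w e = .x → (e < i ↔ e < j)) := by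
  unfold part
  rw [R_iff]
  simp

theorem conv_part (w : Fin n → Lab) : Conv 1 (part w) := by
  intro i j l hil hlj hij
  simp only [Equiv.Perm.coe_one, id] at hil hlj
  by_cases hl : w l = .s
  · right
    intro x hx
    rcases part_iff.1 hx with h | h
    · exact h.symm
    · exact absurd hl h.1
  · left
    rcases part_iff.1 hij with h | ⟨h1, h2, h3⟩
    · subst h
      exact absurd (hil.trans hlj) (lt_irrefl _)
    · refine part_iff.2 (Or.inr ⟨h1, hl, fun e he => ⟨fun h => h.trans hil, fun h => ?_⟩⟩)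
      exact (h3 e he).2 (h.trans hlj)

theorem lab_part {w : Fin n → Lab} (hw : acc (run tp (ext w) n) = true) : lab (part w) = w := by
  funext a
  rcases ha : w a with _ | _ | _
  · rw [lab_eq_s, mem_sing]
    intro y hy
    rcases part_iff.1 hy with h | h
    · exact h.symm
    · exact absurd ha h.1
  · obtain ⟨e, h1, h2, h3⟩ := v2 hw a ha
    have hae : part w a e := by
      refine part_iff.2 (Or.inr ⟨by rw [ha]; simp, by rw [h2]; simp, fun e' he' =>
        ⟨fun h => h.trans h1, fun h => ?_⟩⟩)
      by_contra hcon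
      rcases (not_lt.1 hcon).lt_or_eq with h4 | h4
      · exact h3 e' h4 h he'
      · subst h4; rw [ha] at he'; simp at he'
    rw [lab_eq_m]
    exact ⟨not_mem_sing.2 ⟨e, hae, h1.ne'⟩, e, hae, h1⟩
  · obtain ⟨j, h1, h2, h3⟩ := v1 hw a ha
    have haj : part w a j := by
      refine part_iff.2 (Or.inr ⟨by rw [ha]; simp, by rw [h2]; simp, fun e' he' =>
        ⟨fun h => ?_, fun h => h.trans h1⟩⟩)
      by_contra hcon
      rcases (not_lt.1 hcon).lt_or_eq with h4 | h4
      · exact h3 e' h4 h he'
      · subst h4; rw [h2] at he'; simp at he'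
    rw [lab_eq_x]
    refine ⟨not_mem_sing.2 ⟨j, haj, h1.ne⟩, fun y hy => ?_⟩
    rcases part_iff.1 hy with h | ⟨h4, h5, h6⟩
    · exact h.symm.le
    · by_contra hcon
      exact absurd ((h6 a ha).2 (not_le.1 hcon)) (lt_irrefl _)

theorem lab_injOn {P Q : Setoid (Fin n)} (hP : Conv 1 P) (hQ : Conv 1 Q) (h : lab P = lab Q) :
    P = Q := by
  have h1 : sing P = sing Q := by
    ext a
    rw [← lab_eq_s, ← lab_eq_s, h]
  have h2 : ends P = ends Q := by
    ext a
    rw [mem_ends, mem_ends, ← h1]
    constructor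
    · rintro ⟨h2, h3, h4⟩
      have := lab_eq_x.2 ⟨h2, h3⟩
      rw [h] at this
      exact ⟨h2, (lab_eq_x.1 this).2, h4⟩
    · rintro ⟨h2, h3, h4⟩
      have this : lab Q a = .x := lab_eq_x.2 ⟨by rwa [← h1], h3⟩
      rw [← h] at this
      exact ⟨h2, (lab_eq_x.1 this).2, h4⟩
  rw [recover P hP, recover Q hQ, h1, h2]

/-- number of letters other than `m`. -/
def nm (w : Fin n → Lab) : ℕ := ∑ a, if w a = .m then 0 else 1

theorem card_classes (P : Setoid (Fin n)) : Nat.card (Quotient P) = nm (lab P) := by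
  classical
  rw [card_quot, nm, card_filter]
  apply sum_congr rfl
  intro a _
  by_cases h : lab P a = .m
  · rw [if_pos h, if_neg]
    intro h2
    obtain ⟨-, y, h3, h4⟩ := lab_eq_m.1 h
    exact absurd (h2 y h3) (not_le.2 h4)
  · rw [if_neg h, if_pos]
    intro y hy
    by_contra hcon
    rw [not_le] at hcon
    exact h (lab_eq_m.2 ⟨not_sing_of_rel hy hcon.ne, y, hy, hcon⟩)

/-- accepted words with `k` letters other than `m`. -/
def words (tp : ℕ → Bool) (n k : ℕ) : Finset (Fin n → Lab) :=
  univ.filter fun w => acc (run tp (ext w) n) = true ∧ nm w = k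

theorem ncard_eq (tp : ℕ → Bool) (k : ℕ) :
    Set.ncard {P : Setoid (Fin n) | Conv 1 P ∧ Compat tp P ∧ Nat.card (Quotient P) = k} =
      #(words tp n k) := by
  rw [← Set.ncard_coe_finset]
  have himg : (words tp n k : Set (Fin n → Lab)) =
      lab '' {P : Setoid (Fin n) | Conv 1 P ∧ Compat tp P ∧ Nat.card (Quotient P) = k} := by
    ext w
    simp only [words, coe_filter, mem_univ, true_and, Set.mem_ofPred_eq, Set.mem_image]
    constructor
    · rintro ⟨h1, h2⟩
      have h3 := lab_part h1
      refine ⟨part w, ⟨conv_part w, ?_, ?_⟩, h3⟩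
      · obtain ⟨q, h4, -⟩ := acc_some h1
        rw [← h3] at h4
        exact compat_of_run (conv_part w) h4
      · rw [card_classes, h3, h2]
    · rintro ⟨P, ⟨h1, h2, h3⟩, rfl⟩
      exact ⟨acc_of_compat h1 h2, by rw [← card_classes, h3]⟩
  rw [himg, Set.InjOn.ncard_image]
  rintro P ⟨h1, -⟩ Q ⟨h2, -⟩ h3
  exact lab_injOn h1 h2 h3

end Pool.Agent.W5h68.Phylo
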