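import Pool.Agent.W5h68.Phylo.Bij

set_option autoImplicit false

namespace Pool.Agent.W5h68.Phylo
open Pool.Agent.R935.Phylo Finset

variable {tp : ℕ → Bool}

theorem run_congr {w w' : ℕ → Lab} (k : ℕ) (h : ∀ j, j < k → w j = w' j) :
    run tp w k = run tp w' k := by
  induction k with
  | zero => rfl
  | succ k ih => rw [run, run, ih (fun j hj => h j (by omega)), h k (by omega)]

theorem ext_snoc_lt {n : ℕ} (w : Fin n → Lab) (a : Lab) {j : ℕ} (h : j < n) :
    ext (Fin.snoc (α := fun _ => Lab) w a : Fin (n + 1) → Lab) j = ext w j := by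
  rw [ext_lt _ h, ext_lt _ (show j < n + 1 by omega)]
  exact Fin.snoc_castSucc (α := fun _ => Lab) a w ⟨j, h⟩

theorem ext_snoc_last {n : ℕ} (w : Fin n → Lab) (a : Lab) :
    ext (Fin.snoc (α := fun _ => Lab) w a : Fin (n + 1) → Lab) n = a := by
  rw [ext_lt _ (show n < n + 1 by omega)]
  exact Fin.snoc_last (α := fun _ => Lab) a w

theorem run_snoc {n : ℕ} (w : Fin n → Lab) (a : Lab) :
    run tp (ext (Fin.snoc (α := fun _ => Lab) w a : Fin (n + 1) → Lab)) (n + 1) =
      (run tp (ext w) n).bind (step (tp n) a) := by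
  rw [run, ext_snoc_last, run_congr n (fun j hj => ext_snoc_lt w a hj)]

theorem nm_snoc {n : ℕ} (w : Fin n → Lab) (a : Lab) :
    nm (Fin.snoc (α := fun _ => Lab) w a : Fin (n + 1) → Lab) =
      nm w + if a = .m then 0 else 1 := by
  unfold nm
  rw [Fin.sum_univ_castSucc]
  congr 1
  · apply sum_congr rfl
    intro j _
    rw [Fin.snoc_castSucc (α := fun _ => Lab) a w j]
  · rw [Fin.snoc_last (α := fun _ => Lab) a w]

/-- weight of the words of length `n` reaching state `q`. -/
def H (tp : ℕ → Bool) (B n : ℕ) (q : St) : ℕ :=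
  ∑ w : Fin n → Lab, if run tp (ext w) n = some q then B ^ nm w else 0

theorem sum_snoc {n : ℕ} (f : (Fin (n + 1) → Lab) → ℕ) :
    ∑ w, f w = ∑ w : Fin n → Lab, (f (Fin.snoc (α := fun _ => Lab) w .s) +
      f (Fin.snoc (α := fun _ => Lab) w .m) + f (Fin.snoc (α := fun _ => Lab) w .x)) := by
  rw [← (Fin.snocEquiv (fun _ => Lab)).sum_comp, Fintype.sum_prod_type_right]
  apply sum_congr rfl
  intro w _
  have : (univ : Finset Lab) = {.s, .m, .x} := rfl
  rw [this, sum_insert (by decide), sum_insert (by decide), sum_singleton, add_assoc]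
  rfl

theorem H_succ (B n : ℕ) (q' : St) : H tp B (n + 1) q' =
    ∑ w : Fin n → Lab,
      ((if (run tp (ext w) n).bind (step (tp n) .s) = some q' then B ^ nm w * B else 0) +
      (if (run tp (ext w) n).bind (step (tp n) .m) = some q' then B ^ nm w else 0) +
      (if (run tp (ext w) n).bind (step (tp n) .x) = some q' then B ^ nm w * B else 0)) := by
  unfold H
  rw [sum_snoc]
  apply sum_congr rfl
  intro w _
  simp only [run_snoc, nm_snoc, reduceCtorEq, if_false, if_true, add_zero, pow_succ]

/-- recursive computation of `H`. -/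
def G (tp : ℕ → Bool) (B : ℕ) (n : ℕ) : St → ℕ :=
  Nat.rec (motive := fun _ => St → ℕ)
    (fun q => match q with
      | .z => 1
      | _ => 0)
    (fun n ih q => match q with
      | .z => ih .z * B
      | .f => ih .f * B + (ih .z + ih .f)
      | .i => ih .i * B + ih .f * B + (bif tp n then ih .p * B else ih .n * B)
      | .p => ih .p * B + (bif tp n then ih .i + ih .p else 0)
      | .n => ih .n * B + (bif tp n then 0 else ih .i + ih .n)) n

theorem H_eq_G (B n : ℕ) (q : St) : H tp B n q = G tp B n q := by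
  induction n generalizing q with
  | zero =>
    unfold H
    rw [Fintype.sum_unique]
    cases q <;> simp [run, G, nm]
  | succ n ih =>
    rw [H_succ]
    have key : ∀ q' : St, G tp B (n + 1) q' = match q' with
      | .z => H tp B n .z * B
      | .f => H tp B n .f * B + (H tp B n .z + H tp B n .f)
      | .i => H tp B n .i * B + H tp B n .f * B +
          (bif tp n then H tp B n .p * B else H tp B n .n * B)
      | .p => H tp B n .p * B + (bif tp n then H tp B n .i + H tp B n .p else 0)
      | .n => H tp B n .n * B + (bif tp n then 0 else H tp B n .i + H tp B n .n) := by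
      intro q'
      simp only [ih]
      cases q' <;> rfl
    rw [key]
    cases htp : tp n <;> cases q <;>
    · simp only [H, cond_true, cond_false, ← sum_add_distrib, sum_mul, add_zero]
      apply sum_congr rfl
      intro w _
      rcases run tp (ext w) n with _ | (_ | _ | _ | _ | _) <;>
        simp [step]

theorem digit (B : ℕ) (m : ℕ) (f : ℕ → ℕ) (hf : ∀ k, f k < B) (j : ℕ) (hj : j < m) :
    (∑ k ∈ range m, f k * B ^ k) / B ^ j % B = f j := by
  have hB : 0 < B := lt_of_le_of_lt (Nat.zero_le _) (hf 0)
  induction m generalizing f j with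
  | zero => omega
  | succ m ih =>
    rw [sum_range_succ']
    have h1 : ∑ k ∈ range m, f (k + 1) * B ^ (k + 1) + f 0 * B ^ 0 =
        f 0 + B * ∑ k ∈ range m, f (k + 1) * B ^ k := by
      rw [mul_sum, pow_zero, mul_one, add_comm]
      congr 1
      apply sum_congr rfl
      intro k _
      ring
    rw [h1]
    cases j with
    | zero =>
      rw [pow_zero, Nat.div_one, Nat.add_mul_mod_self_left, Nat.mod_eq_of_lt (hf 0)]
    | succ j =>
      rw [pow_succ', ← Nat.div_div_eq_div_mul, Nat.add_mul_div_left _ _ hB,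
        Nat.div_eq_of_lt (hf 0), zero_add]
      exact ih (fun k => f (k + 1)) (fun k => hf (k + 1)) j (by omega)

theorem card_words_le (n k : ℕ) : #(words tp n k) ≤ 3 ^ n := by
  refine (card_le_univ _).trans ?_
  rw [Fintype.card_fun, Fintype.card_fin]
  exact le_of_eq rfl

theorem nm_le {n : ℕ} (w : Fin n → Lab) : nm w ≤ n := by
  unfold nm
  calc ∑ a, (if w a = .m then 0 else 1) ≤ ∑ a : Fin n, 1 := by
        apply sum_le_sum
        intro a _
        split_ifs <;> simp
    _ = n := by simp

theorem total_eq (B n : ℕ) : ∑ k ∈ range (n + 1), #(words tp n k) * B ^ k =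
    H tp B n .z + H tp B n .i := by
  unfold H
  rw [← sum_add_distrib]
  have h1 : ∀ k, #(words tp n k) * B ^ k =
      ∑ w : Fin n → Lab, if acc (run tp (ext w) n) = true ∧ nm w = k then B ^ nm w else 0 := by
    intro k
    rw [words, ← sum_filter, sum_congr rfl (g := fun _ => B ^ k)]
    · rw [sum_const, smul_eq_mul]
    · intro w hw
      rw [(mem_filter.1 hw).2.2]
  simp only [h1]
  rw [sum_comm]
  apply sum_congr rfl
  intro w _
  have h2 : ∀ k, (if acc (run tp (ext w) n) = true ∧ nm w = k then B ^ nm w else 0) =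
      if nm w = k then (if acc (run tp (ext w) n) = true then B ^ nm w else 0) else 0 := by
    intro k
    by_cases h3 : nm w = k <;> by_cases h4 : acc (run tp (ext w) n) = true <;> simp [h3, h4]
  simp only [h2]
  rw [sum_ite_eq, if_pos (mem_range.2 (Nat.lt_succ_iff.2 (nm_le w)))]
  rcases run tp (ext w) n with _ | (_ | _ | _ | _ | _) <;> simp [acc]

theorem card_words {B n : ℕ} (hB : 3 ^ n < B) {k : ℕ} (hk : k ≤ n) :
    #(words tp n k) = (G tp B n .z + G tp B n .i) / B ^ k % B := by
  rw [← H_eq_G, ← H_eq_G, ← total_eq]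
  exact (digit B (n + 1) (fun k => #(words tp n k))
    (fun k => lt_of_le_of_lt (card_words_le n k) hB) k (by omega)).symm

end Pool.Agent.W5h68.Phylo
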