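import Pool.Agent.W5h68.Phylo.Gf

set_option autoImplicit false

namespace Pool.Agent.W5h68.Phylo
open Pool.Agent.R935.Phylo Finset

/-- the leaves `16, 18, ..., 40`. -/
def tp (i : ℕ) : Bool := decide (16 ≤ i) && decide (i % 2 = 0)

/-- position of leaf `i` on the second caterpillar. -/
def pT (i : ℕ) : ℕ := if i < 16 then i + 13 else if i % 2 = 0 then 20 - i / 2 else 29 + (i - 17) / 2

/-- inverse of `pT`. -/
def pI (i : ℕ) : ℕ := if i < 13 then 40 - 2 * i else if i < 29 then i - 13 else 17 + 2 * (i - 29)

/-- the leaf order of the second caterpillar. -/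
def sig : Equiv.Perm (Fin (40 + 2)) where
  toFun i := ⟨pT i, by have := i.2; unfold pT; split_ifs <;> omega⟩
  invFun i := ⟨pI i, by have := i.2; unfold pI; split_ifs <;> omega⟩
  left_inv i := by
    have := i.2
    ext
    simp only [pT, pI]
    split_ifs <;> omega
  right_inv i := by
    have := i.2
    ext
    simp only [pT, pI]
    split_ifs <;> omega

theorem tp_true {i : ℕ} : tp i = true ↔ 16 ≤ i ∧ i % 2 = 0 := by simp [tp]

theorem tp_false {i : ℕ} : tp i = false ↔ i < 16 ∨ i % 2 = 1 := by
  rw [← Bool.not_eq_true, tp_true]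
  omega

theorem sig_lt {i j : Fin (40 + 2)} : sig i < sig j ↔ pT i < pT j := Iff.rfl

theorem lt_pp {i j : Fin (40 + 2)} (hi : tp i = true) (hj : tp j = true) :
    sig i < sig j ↔ j < i := by
  rw [sig_lt, Fin.lt_def]
  rw [tp_true] at hi hj
  have := i.2
  have := j.2
  unfold pT
  rw [if_neg (by omega), if_pos hi.2, if_neg (by omega), if_pos hj.2]
  omega

theorem lt_nn {i j : Fin (40 + 2)} (hi : tp i = false) (hj : tp j = false) :
    sig i < sig j ↔ i < j := by
  rw [sig_lt, Fin.lt_def]
  rw [tp_false] at hi hj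
  have := i.2
  have := j.2
  unfold pT
  split_ifs <;> omega

theorem lt_pn {i j : Fin (40 + 2)} (hi : tp i = true) (hj : tp j = false) :
    sig i < sig j := by
  rw [sig_lt]
  rw [tp_true] at hi
  rw [tp_false] at hj
  have := i.2
  have := j.2
  unfold pT
  split_ifs <;> omega

theorem compat_iff {P : Setoid (Fin (40 + 2))} (hP : Conv 1 P) : Conv sig P ↔ Compat tp P := by
  constructor
  · intro h x u v huv tu tv hx hxu
    by_contra hcon
    rw [not_lt] at hcon
    have hne : x ≠ u := by rintro rfl; exact hxu (P.refl' _)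
    have hxu' : x < u := lt_of_le_of_ne hcon hne
    have hxv : x < v := by
      by_contra hcon2
      rw [not_lt] at hcon2
      rcases hcon2.lt_or_eq with h1 | h1
      · have := conv1 hP h1 hxu' (P.symm' huv) hx
        exact hxu (P.trans' (P.symm' this) (P.symm' huv))
      · subst h1; exact hxu (P.symm' huv)
    have hmain : sig u < sig x ∧ sig x < sig v := by
      cases hx' : tp x
      · exact ⟨lt_pn tu hx', (lt_nn hx' tv).2 hxv⟩
      · exact ⟨(lt_pp tu hx').2 hxu', lt_pn hx' tv⟩
    rcases h u v x hmain.1 hmain.2 huv with h1 | h1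
    · exact hxu (P.symm' h1)
    · exact hx (mem_sing.2 h1)
  · intro h i j l hil hlj hij
    by_contra hcon
    have h1 : ¬ P i l := fun h => hcon (Or.inl h)
    have h2 : l ∉ sing P := fun h => hcon (Or.inr (mem_sing.1 h))
    cases hi : tp i <;> cases hj : tp j
    · have hl : tp l = false := by
        by_contra h3
        rw [Bool.not_eq_false] at h3
        exact absurd hil (not_lt.2 (lt_pn h3 hi).le)
      exact h1 (conv1 hP ((lt_nn hi hl).1 hil) ((lt_nn hl hj).1 hlj) hij h2)
    · exact absurd (hil.trans hlj) (not_lt.2 (lt_pn hj hi).le)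
    · have h3 : i < l := h l i j hij hi hj h2 (fun h => h1 (P.symm' h))
      cases hl : tp l
      · exact h1 (conv1 hP h3 ((lt_nn hl hj).1 hlj) hij h2)
      · exact absurd ((lt_pp hi hl).1 hil) (not_lt.2 h3.le)
    · have hl : tp l = true := by
        by_contra h3
        rw [Bool.not_eq_true] at h3
        exact absurd hlj (not_lt.2 (lt_pn hj h3).le)
      have h3 := (lt_pp hi hl).1 hil
      have h4 := (lt_pp hl hj).1 hlj
      exact h1 (P.trans' hij (conv1 hP h4 h3 (P.symm' hij) h2))

/-- The first caterpillar: leaf order `0, 1, ..., 41`. -/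
def F42 : PhyloTree (40 + 2) := cat 40 (by norm_num) 1

/-- The second caterpillar: leaf order `40, 38, ..., 16, 0, 1, ..., 15, 17, 19, ..., 41`. -/
def T42 : PhyloTree (40 + 2) := cat 40 (by norm_num) sig

theorem common_eq (k : ℕ) : common T42 F42 k = #(words tp 42 k) := by
  rw [← ncard_eq]
  unfold common
  congr 1
  ext P
  have h1 : T42.Induces P ↔ Conv sig P := induces_iff _ _ _
  have h2 : F42.Induces P ↔ Conv 1 P := induces_iff _ _ _
  simp only [Set.mem_ofPred_eq, h1, h2]
  constructor
  · rintro ⟨h3, h4, h5⟩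
    exact ⟨h4, (compat_iff h4).1 h3, h5⟩
  · rintro ⟨h3, h4, h5⟩
    exact ⟨(compat_iff h3).2 h4, h3, h5⟩

theorem common_val {k : ℕ} (hk : k ≤ 42) : common T42 F42 k =
    (G tp (2 ^ 80) 42 .z + G tp (2 ^ 80) 42 .i) / (2 ^ 80) ^ k % (2 ^ 80) := by
  rw [common_eq, card_words (B := 2 ^ 80) (by norm_num) hk]

theorem v24 : common T42 F42 24 = 969565439051 := by
  rw [common_val (by norm_num)]
  decide +kernel

theorem v25 : common T42 F42 25 = 960050631494 := by
  rw [common_val (by norm_num)]
  decide +kernel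

theorem v26 : common T42 F42 26 = 970581162494 := by
  rw [common_val (by norm_num)]
  decide +kernel

end Pool.Agent.W5h68.Phylo
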