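import Pool.Agent.R935.Phylo.Code

set_option autoImplicit false

namespace Pool.Agent.W5h68.Phylo

/-- Labels of leaves: singleton class, non-maximal element of a larger class, maximal element
of a larger class. -/
inductive Lab | s | m | x
  deriving DecidableEq

instance : Fintype Lab := ⟨{.s, .m, .x}, by rintro (_ | _ | _) <;> simp⟩

/-- States of the automaton. -/
inductive St | z | f | i | p | n
  deriving DecidableEq

open Pool.Agent.R935.Phylo Finset

/-- Transitions of the automaton. -/
def step : Bool → Lab → St → Option St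
  | _, .s, q => some q
  | _, .m, .z => some .f
  | _, .m, .f => some .f
  | true, .m, .i => some .p
  | false, .m, .i => some .n
  | true, .m, .p => some .p
  | false, .m, .n => some .n
  | _, .x, .f => some .i
  | true, .x, .p => some .i
  | false, .x, .n => some .i
  | _, _, _ => none

/-- Run of the automaton. -/
def run (tp : ℕ → Bool) (w : ℕ → Lab) : ℕ → Option St
  | 0 => some .z
  | k + 1 => (run tp w k).bind (step (tp k) (w k))

/-- Extension of a word of length `n`. -/
def ext {n : ℕ} (w : Fin n → Lab) (k : ℕ) : Lab := if h : k < n then w ⟨k, h⟩ else .s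

theorem ext_lt {n : ℕ} (w : Fin n → Lab) {k : ℕ} (h : k < n) : ext w k = w ⟨k, h⟩ := dif_pos h

theorem ext_fin {n : ℕ} (w : Fin n → Lab) (k : Fin n) : ext w k = w k := by
  rw [ext_lt w k.2]

open Classical in
/-- The label word of a partition. -/
noncomputable def lab {n : ℕ} (P : Setoid (Fin n)) (a : Fin n) : Lab :=
  if a ∈ sing P then .s else if ∀ y, P a y → y ≤ a then .x else .m

theorem lab_eq_s {n : ℕ} {P : Setoid (Fin n)} {a : Fin n} : lab P a = .s ↔ a ∈ sing P := by
  unfold lab
  split_ifs <;> simp_all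

theorem lab_eq_x {n : ℕ} {P : Setoid (Fin n)} {a : Fin n} :
    lab P a = .x ↔ a ∉ sing P ∧ ∀ y, P a y → y ≤ a := by
  unfold lab
  split_ifs <;> simp_all

theorem lab_eq_m {n : ℕ} {P : Setoid (Fin n)} {a : Fin n} :
    lab P a = .m ↔ a ∉ sing P ∧ ∃ y, P a y ∧ a < y := by
  unfold lab
  split_ifs with h1 h2
  · simp_all
  · simp only [false_iff, not_and, not_exists, not_lt]
    exact fun _ y hy => h2 y hy
  · simp only [true_iff]
    push Not at h2
    exact ⟨h1, h2⟩

section
variable {n : ℕ} (tp : ℕ → Bool) (P : Setoid (Fin n))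

/-- All blocks but the first one are pure. -/
def Compat : Prop := ∀ x u v : Fin n, P u v → tp u = true → tp v = false → x ∉ sing P →
  ¬ P x u → u < x

/-- Compatibility for blocks among the first `k` elements. -/
def VV (k : ℕ) : Prop := ∀ x u v : Fin n, (u : ℕ) < k → (v : ℕ) < k → P u v → tp u = true →
  tp v = false → x ∉ sing P → ¬ P x u → u < x

/-- Meaning of the states. -/
def Rel (k : ℕ) : St → Prop
  | .z => ∀ a : Fin n, (a : ℕ) < k → a ∈ sing P
  | .f => ∃ a b : Fin n, (a : ℕ) < k ∧ k ≤ (b : ℕ) ∧ P a b ∧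
      ∀ x : Fin n, (x : ℕ) < k → x ∉ sing P → P a x
  | .i => (∃ a : Fin n, (a : ℕ) < k ∧ a ∉ sing P) ∧
      ∀ a b : Fin n, (a : ℕ) < k → P a b → (b : ℕ) < k
  | .p => ∃ a b : Fin n, (a : ℕ) < k ∧ k ≤ (b : ℕ) ∧ P a b ∧
      (∃ x : Fin n, (x : ℕ) < k ∧ x ∉ sing P ∧ ¬ P a x) ∧
      ∀ y : Fin n, (y : ℕ) < k → P a y → tp y = true
  | .n => ∃ a b : Fin n, (a : ℕ) < k ∧ k ≤ (b : ℕ) ∧ P a b ∧
      (∃ x : Fin n, (x : ℕ) < k ∧ x ∉ sing P ∧ ¬ P a x) ∧
      ∀ y : Fin n, (y : ℕ) < k → P a y → tp y = false

end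

variable {n : ℕ} {tp : ℕ → Bool} {P : Setoid (Fin n)}

theorem conv1 (hP : Conv 1 P) {i j l : Fin n} (h1 : i < l) (h2 : l < j) (h3 : P i j)
    (h4 : l ∉ sing P) : P i l := by
  rcases hP i j l h1 h2 h3 with h | h
  · exact h
  · exact absurd (mem_sing.2 h) h4

/-- an open block contains the next non-singleton element. -/
theorem rel_of_open (hP : Conv 1 P) {a b c : Fin n} (h1 : a < c) (h2 : c ≤ b) (h3 : P a b)
    (h4 : c ∉ sing P) : P a c := by
  rcases h2.lt_or_eq with h | h
  · exact conv1 hP h1 h h3 h4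
  · subst h; exact h3

theorem VV_of_pure {k : ℕ} {hk : k < n} (b : Bool) (hV : VV tp P k) (htp : tp k = b)
    (h : ∀ y : Fin n, (y : ℕ) < k → P ⟨k, hk⟩ y → tp y = b) : VV tp P (k + 1) := by
  intro x u v hu hv huv tu tv hx hxu
  rcases (Nat.lt_succ_iff.1 hu).lt_or_eq with hu' | hu'
  · rcases (Nat.lt_succ_iff.1 hv).lt_or_eq with hv' | hv'
    · exact hV x u v hu' hv' huv tu tv hx hxu
    · have hvk : v = ⟨k, hk⟩ := Fin.ext hv'
      subst hvk
      have h1 := h u hu' (P.symm' huv)
      simp only at tv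
      rw [h1] at tu
      rw [htp, tu] at tv
      exact absurd tv (by simp)
  · have huk : u = ⟨k, hk⟩ := Fin.ext hu'
    subst huk
    simp only at tu
    rcases (Nat.lt_succ_iff.1 hv).lt_or_eq with hv' | hv'
    · have h1 := h v hv' huv
      rw [h1] at tv
      rw [htp, tv] at tu
      exact absurd tu (by simp)
    · rw [hv', tu] at tv
      exact absurd tv (by simp)

theorem rel_step (hP : Conv 1 P) {k : ℕ} (hk : k < n) {q q' : St} (h : Rel tp P k q)
    (hV : VV tp P k) (hs : step (tp k) (lab P ⟨k, hk⟩) q = some q') :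
    Rel tp P (k + 1) q' ∧ VV tp P (k + 1) := by
  have lt_cases : ∀ {a : Fin n}, (a : ℕ) < k + 1 → (a : ℕ) < k ∨ a = ⟨k, hk⟩ := by
    intro a ha
    rcases (Nat.lt_succ_iff.1 ha).lt_or_eq with h | h
    · exact Or.inl h
    · exact Or.inr (Fin.ext h)
  rcases hl : lab P ⟨k, hk⟩ with _ | _ | _
  · -- singleton
    have hk1 := lab_eq_s.1 hl
    have hns : ∀ {a : Fin n}, (a : ℕ) < k + 1 → a ∉ sing P → (a : ℕ) < k := by
      intro a ha hns
      rcases lt_cases ha with h1 | h1
      · exact h1
      · subst h1; exact absurd hk1 hns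
    rw [hl] at hs
    have : q' = q := by
      unfold step at hs
      exact (Option.some.inj hs).symm
    subst this
    have hb : ∀ {a b : Fin n}, (a : ℕ) < k → k ≤ (b : ℕ) → P a b → k + 1 ≤ (b : ℕ) := by
      intro a b h1 h2 h3
      rcases h2.lt_or_eq with h4 | h4
      · exact h4
      · exfalso
        have hbk : b = ⟨k, hk⟩ := Fin.ext h4.symm
        subst hbk
        have := mem_sing.1 hk1 a (P.symm' h3)
        subst this
        simp at h1
    refine ⟨?_, ?_⟩
    · cases q' with
      | z =>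
        intro a ha
        rcases lt_cases ha with h1 | h1
        · exact h a h1
        · subst h1; exact hk1
      | f =>
        obtain ⟨a, b, h1, h2, h3, h4⟩ := h
        exact ⟨a, b, by omega, hb h1 h2 h3, h3, fun x hx hx' => h4 x (hns hx hx') hx'⟩
      | i =>
        obtain ⟨⟨a, h1, h2⟩, h3⟩ := h
        refine ⟨⟨a, by omega, h2⟩, fun a b ha hab => ?_⟩
        rcases lt_cases ha with h4 | h4
        · have := h3 a b h4 hab
          omega
        · subst h4
          have := mem_sing.1 hk1 b hab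
          subst this
          simp
      | p =>
        obtain ⟨a, b, h1, h2, h3, ⟨x, h4, h5, h6⟩, h7⟩ := h
        refine ⟨a, b, by omega, hb h1 h2 h3, h3, ⟨x, by omega, h5, h6⟩, fun y hy hay => ?_⟩
        by_cases hay' : a = y
        · subst hay'; exact h7 a h1 hay
        · exact h7 y (hns hy (not_sing_of_rel (P.symm' hay) (Ne.symm hay'))) hay
      | n =>
        obtain ⟨a, b, h1, h2, h3, ⟨x, h4, h5, h6⟩, h7⟩ := h
        refine ⟨a, b, by omega, hb h1 h2 h3, h3, ⟨x, by omega, h5, h6⟩, fun y hy hay => ?_⟩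
        by_cases hay' : a = y
        · subst hay'; exact h7 a h1 hay
        · exact h7 y (hns hy (not_sing_of_rel (P.symm' hay) (Ne.symm hay'))) hay
    · intro x u v hu hv huv tu tv hx hxu
      have hne : u ≠ v := by
        rintro rfl
        rw [tu] at tv
        exact absurd tv (by simp)
      exact hV x u v (hns hu (not_sing_of_rel huv hne))
        (hns hv (not_sing_of_rel (P.symm' huv) hne.symm)) huv tu tv hx hxu
  all_goals
    have hkm := hl
    rw [hl] at hs
  · -- non-maximal element
    obtain ⟨hk1, y, hky, hlt⟩ := lab_eq_m.1 hkm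
    have hlt' : k < (y : ℕ) := hlt
    have hclosed : (∀ a b : Fin n, (a : ℕ) < k → P a b → (b : ℕ) < k) →
        ∀ z : Fin n, (z : ℕ) < k → ¬ P ⟨k, hk⟩ z := by
      intro h3 z hz hkz
      have := h3 z ⟨k, hk⟩ hz (P.symm' hkz)
      simp at this
    cases q with
    | z =>
      have hq : q' = .f := by
        cases htk : tp k <;> rw [htk] at hs <;> exact (Option.some.inj hs).symm
      subst hq
      refine ⟨⟨⟨k, hk⟩, y, by simp, hlt', hky, ?_⟩, ?_⟩
      · intro x hx hx'
        rcases lt_cases hx with h1 | h1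
        · exact absurd (h x h1) hx'
        · subst h1; exact P.refl' _
      · apply VV_of_pure (hk := hk) (tp k) hV rfl
        intro z hz hkz
        have hne : (⟨k, hk⟩ : Fin n) ≠ z := by
          rintro rfl
          simp at hz
        exact absurd (h z hz) (not_sing_of_rel (P.symm' hkz) hne.symm)
    | f =>
      have hq : q' = .f := by
        cases htk : tp k <;> rw [htk] at hs <;> exact (Option.some.inj hs).symm
      subst hq
      obtain ⟨a, b, h1, h2, h3, h4⟩ := h
      have hak : P a ⟨k, hk⟩ := rel_of_open hP h1 h2 h3 hk1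
      have h5 : ∀ x : Fin n, (x : ℕ) < k + 1 → x ∉ sing P → P a x := by
        intro x hx hx'
        rcases lt_cases hx with h6 | h6
        · exact h4 x h6 hx'
        · subst h6; exact hak
      refine ⟨⟨a, y, by omega, hlt', P.trans' hak hky, h5⟩, ?_⟩
      intro x u v hu hv huv tu tv hx hxu
      have hne : u ≠ v := by
        rintro rfl
        rw [tu] at tv
        exact absurd tv (by simp)
      by_contra hcon
      rw [not_lt] at hcon
      have h6 := h5 u hu (not_sing_of_rel huv hne)
      have h7 := h5 x (lt_of_le_of_lt hcon hu) hx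
      exact hxu (P.trans' (P.symm' h7) h6)
    | i =>
      obtain ⟨⟨c, h1, h2⟩, h3⟩ := h
      have h4 := hclosed h3
      have hx : ∃ x : Fin n, (x : ℕ) < k + 1 ∧ x ∉ sing P ∧ ¬ P ⟨k, hk⟩ x :=
        ⟨c, by omega, h2, h4 c h1⟩
      have hV' : VV tp P (k + 1) := VV_of_pure (hk := hk) (tp k) hV rfl
        (fun z hz hkz => absurd hkz (h4 z hz))
      refine ⟨?_, hV'⟩
      cases htk : tp k <;> rw [htk] at hs
      · have hq : q' = .n := (Option.some.inj hs).symm
        subst hq
        refine ⟨⟨k, hk⟩, y, by simp, hlt', hky, hx, fun z hz hkz => ?_⟩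
        rcases lt_cases hz with h5 | h5
        · exact absurd hkz (h4 z h5)
        · subst h5; exact htk
      · have hq : q' = .p := (Option.some.inj hs).symm
        subst hq
        refine ⟨⟨k, hk⟩, y, by simp, hlt', hky, hx, fun z hz hkz => ?_⟩
        rcases lt_cases hz with h5 | h5
        · exact absurd hkz (h4 z h5)
        · subst h5; exact htk
    | p =>
      obtain ⟨a, b, h1, h2, h3, ⟨x, h4, h5, h6⟩, h7⟩ := h
      have hak : P a ⟨k, hk⟩ := rel_of_open hP h1 h2 h3 hk1
      cases htk : tp k <;> rw [htk] at hs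
      · exact absurd hs (by simp [step])
      · have hq : q' = .p := (Option.some.inj hs).symm
        subst hq
        refine ⟨⟨a, y, by omega, hlt', P.trans' hak hky, ⟨x, by omega, h5, h6⟩,
          fun z hz haz => ?_⟩, VV_of_pure (hk := hk) true hV htk
          (fun z hz hkz => h7 z hz (P.trans' hak hkz))⟩
        rcases lt_cases hz with h8 | h8
        · exact h7 z h8 haz
        · subst h8; exact htk
    | n =>
      obtain ⟨a, b, h1, h2, h3, ⟨x, h4, h5, h6⟩, h7⟩ := h
      have hak : P a ⟨k, hk⟩ := rel_of_open hP h1 h2 h3 hk1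
      cases htk : tp k <;> rw [htk] at hs
      · have hq : q' = .n := (Option.some.inj hs).symm
        subst hq
        refine ⟨⟨a, y, by omega, hlt', P.trans' hak hky, ⟨x, by omega, h5, h6⟩,
          fun z hz haz => ?_⟩, VV_of_pure (hk := hk) false hV htk
          (fun z hz hkz => h7 z hz (P.trans' hak hkz))⟩
        rcases lt_cases hz with h8 | h8
        · exact h7 z h8 haz
        · subst h8; exact htk
      · exact absurd hs (by simp [step])
  · -- maximal element
    obtain ⟨hk1, hmax⟩ := lab_eq_x.1 hkm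
    have hcl : ∀ a b : Fin n, (a : ℕ) < k + 1 → P a b → (b : ℕ) < k + 1 := by
      intro a b ha hab
      by_contra hcon
      rw [not_lt] at hcon
      rcases lt_cases ha with h1 | h1
      · have h2 : P a ⟨k, hk⟩ := conv1 hP (j := b) h1 (by simpa [Fin.lt_def] using hcon) hab hk1
        have := hmax b (P.trans' (P.symm' h2) hab)
        rw [Fin.le_def] at this
        simp only at this
        omega
      · subst h1
        have := hmax b hab
        rw [Fin.le_def] at this
        simp only at this
        omega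
    have hi : Rel tp P (k + 1) .i := ⟨⟨⟨k, hk⟩, by simp, hk1⟩, hcl⟩
    cases q with
    | z => cases htk : tp k <;> rw [htk] at hs <;> exact absurd hs (by simp [step])
    | i => cases htk : tp k <;> rw [htk] at hs <;> exact absurd hs (by simp [step])
    | f =>
      have hq : q' = .i := by
        cases htk : tp k <;> rw [htk] at hs <;> exact (Option.some.inj hs).symm
      subst hq
      obtain ⟨a, b, h1, h2, h3, h4⟩ := h
      have hak : P a ⟨k, hk⟩ := rel_of_open hP h1 h2 h3 hk1
      have h5 : ∀ x : Fin n, (x : ℕ) < k + 1 → x ∉ sing P → P a x := by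
        intro x hx hx'
        rcases lt_cases hx with h6 | h6
        · exact h4 x h6 hx'
        · subst h6; exact hak
      refine ⟨hi, ?_⟩
      intro x u v hu hv huv tu tv hx hxu
      have hne : u ≠ v := by
        rintro rfl
        rw [tu] at tv
        exact absurd tv (by simp)
      by_contra hcon
      rw [not_lt] at hcon
      have h6 := h5 u hu (not_sing_of_rel huv hne)
      have h7 := h5 x (lt_of_le_of_lt hcon hu) hx
      exact hxu (P.trans' (P.symm' h7) h6)
    | p =>
      obtain ⟨a, b, h1, h2, h3, ⟨x, h4, h5, h6⟩, h7⟩ := h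
      have hak : P a ⟨k, hk⟩ := rel_of_open hP h1 h2 h3 hk1
      cases htk : tp k <;> rw [htk] at hs
      · exact absurd hs (by simp [step])
      · have hq : q' = .i := (Option.some.inj hs).symm
        subst hq
        exact ⟨hi, VV_of_pure (hk := hk) true hV htk
          (fun z hz hkz => h7 z hz (P.trans' hak hkz))⟩
    | n =>
      obtain ⟨a, b, h1, h2, h3, ⟨x, h4, h5, h6⟩, h7⟩ := h
      have hak : P a ⟨k, hk⟩ := rel_of_open hP h1 h2 h3 hk1
      cases htk : tp k <;> rw [htk] at hs
      · have hq : q' = .i := (Option.some.inj hs).symm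
        subst hq
        exact ⟨hi, VV_of_pure (hk := hk) false hV htk
          (fun z hz hkz => h7 z hz (P.trans' hak hkz))⟩
      · exact absurd hs (by simp [step])

theorem step_ne_none (hP : Conv 1 P) (hC : Compat tp P) {k : ℕ} (hk : k < n) {q : St}
    (h : Rel tp P k q) : ∃ q', step (tp k) (lab P ⟨k, hk⟩) q = some q' := by
  rcases hl : lab P ⟨k, hk⟩ with _ | _ | _
  · exact ⟨q, by unfold step; rfl⟩
  · obtain ⟨hk1, y, hky, hlt⟩ := lab_eq_m.1 hl
    cases q with
    | z => exact ⟨.f, by cases tp k <;> rfl⟩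
    | f => exact ⟨.f, by cases tp k <;> rfl⟩
    | i =>
      cases tp k
      · exact ⟨.n, rfl⟩
      · exact ⟨.p, rfl⟩
    | p =>
      obtain ⟨a, b, h1, h2, h3, ⟨x, h4, h5, h6⟩, h7⟩ := h
      have hak : P a ⟨k, hk⟩ := rel_of_open hP h1 h2 h3 hk1
      cases htk : tp k
      · exfalso
        have h8 := hC x a ⟨k, hk⟩ hak (h7 a h1 (P.refl' a)) htk h5 (fun h => h6 (P.symm' h))
        exact h6 (conv1 hP h8 h4 hak h5)
      · exact ⟨.p, rfl⟩
    | n =>
      obtain ⟨a, b, h1, h2, h3, ⟨x, h4, h5, h6⟩, h7⟩ := h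
      have hak : P a ⟨k, hk⟩ := rel_of_open hP h1 h2 h3 hk1
      cases htk : tp k
      · exact ⟨.n, rfl⟩
      · exfalso
        have h8 := hC x ⟨k, hk⟩ a (P.symm' hak) htk (h7 a h1 (P.refl' a)) h5
          (fun h => h6 (P.trans' hak (P.symm' h)))
        rw [Fin.lt_def] at h8
        simp only at h8
        omega
  · obtain ⟨hk1, hmax⟩ := lab_eq_x.1 hl
    obtain ⟨y, hky, hne⟩ := not_mem_sing.1 hk1
    have hyk : (y : ℕ) < k := by
      have h1 := hmax y hky
      rw [Fin.le_def] at h1
      simp only at h1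
      rcases h1.lt_or_eq with h2 | h2
      · exact h2
      · exact absurd (Fin.ext h2) hne
    cases q with
    | z => exact absurd (h y hyk) (not_sing_of_rel (P.symm' hky) hne)
    | i =>
      have := h.2 y ⟨k, hk⟩ hyk (P.symm' hky)
      simp at this
    | f => exact ⟨.i, by cases tp k <;> rfl⟩
    | p =>
      obtain ⟨a, b, h1, h2, h3, ⟨x, h4, h5, h6⟩, h7⟩ := h
      have hak : P a ⟨k, hk⟩ := rel_of_open hP h1 h2 h3 hk1
      cases htk : tp k
      · exfalso
        have h8 := hC x a ⟨k, hk⟩ hak (h7 a h1 (P.refl' a)) htk h5 (fun h => h6 (P.symm' h))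
        exact h6 (conv1 hP h8 h4 hak h5)
      · exact ⟨.i, rfl⟩
    | n =>
      obtain ⟨a, b, h1, h2, h3, ⟨x, h4, h5, h6⟩, h7⟩ := h
      have hak : P a ⟨k, hk⟩ := rel_of_open hP h1 h2 h3 hk1
      cases htk : tp k
      · exact ⟨.i, rfl⟩
      · exfalso
        have h8 := hC x ⟨k, hk⟩ a (P.symm' hak) htk (h7 a h1 (P.refl' a)) h5
          (fun h => h6 (P.trans' hak (P.symm' h)))
        rw [Fin.lt_def] at h8
        simp only at h8
        omega

/-- accepting states. -/
def acc : Option St → Bool
  | some .z => true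
  | some .i => true
  | _ => false

theorem run_of_compat (hP : Conv 1 P) (hC : Compat tp P) (k : ℕ) (hk : k ≤ n) :
    ∃ q, run tp (ext (lab P)) k = some q ∧ Rel tp P k q ∧ VV tp P k := by
  induction k with
  | zero =>
    refine ⟨.z, rfl, ?_, ?_⟩
    · intro a ha; omega
    · intro x u v hu; omega
  | succ k ih =>
    obtain ⟨q, h1, h2, h3⟩ := ih (by omega)
    obtain ⟨q', h4⟩ := step_ne_none hP hC (show k < n by omega) h2
    obtain ⟨h5, h6⟩ := rel_step hP (show k < n by omega) h2 h3 h4
    refine ⟨q', ?_, h5, h6⟩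
    rw [run, h1, Option.bind_some, ext_lt _ (show k < n by omega)]
    exact h4

theorem acc_of_compat (hP : Conv 1 P) (hC : Compat tp P) :
    acc (run tp (ext (lab P)) n) = true := by
  obtain ⟨q, h1, h2, -⟩ := run_of_compat hP hC n le_rfl
  rw [h1]
  cases q with
  | z => rfl
  | i => rfl
  | f => obtain ⟨a, b, h3, h4, -⟩ := h2; exact absurd b.2 (not_lt.2 h4)
  | p => obtain ⟨a, b, h3, h4, -⟩ := h2; exact absurd b.2 (not_lt.2 h4)
  | n => obtain ⟨a, b, h3, h4, -⟩ := h2; exact absurd b.2 (not_lt.2 h4)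

theorem run_some_of_le {w : ℕ → Lab} {k l : ℕ} (h : k ≤ l) {q : St}
    (hl : run tp w l = some q) : ∃ q', run tp w k = some q' := by
  induction l generalizing q with
  | zero =>
    have : k = 0 := by omega
    subst this
    exact ⟨q, hl⟩
  | succ l ih =>
    rcases h.lt_or_eq with h1 | h1
    · rw [run] at hl
      rcases hr : run tp w l with _ | q''
      · rw [hr] at hl
        simp at hl
      · exact ih (by omega) hr
    · subst h1; exact ⟨q, hl⟩

theorem compat_of_run (hP : Conv 1 P) {q : St} (h : run tp (ext (lab P)) n = some q) :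
    Compat tp P := by
  have key : ∀ k, k ≤ n → ∃ q, run tp (ext (lab P)) k = some q ∧ Rel tp P k q ∧ VV tp P k := by
    intro k hk
    induction k with
    | zero =>
      refine ⟨.z, rfl, ?_, ?_⟩
      · intro a ha; omega
      · intro x u v hu; omega
    | succ k ih =>
      obtain ⟨q1, h1, h2, h3⟩ := ih (by omega)
      obtain ⟨q', h4⟩ := run_some_of_le hk h
      have h5 := h4
      rw [run, h1, Option.bind_some, ext_lt _ (show k < n by omega)] at h5
      exact ⟨q', h4, rel_step hP (show k < n by omega) h2 h3 h5⟩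
  obtain ⟨-, -, -, h3⟩ := key n le_rfl
  intro x u v huv tu tv hx hxu
  exact h3 x u v u.2 v.2 huv tu tv hx hxu

end Pool.Agent.W5h68.Phylo
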